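import Mathlib

set_option autoImplicit false

/-!
Finite sections of a lower triangular Toeplitz isometry with real entries.
-/

namespace Pool.Agent.TH259.FS

open Filter Topology ComplexConjugate
open scoped InnerProductSpace

/-- The Hilbert space. -/
abbrev E : Type := lp (fun _ : ℕ => ℂ) 2

/-- basis vectors -/
noncomputable def e (k : ℕ) : E := lp.single 2 k (1 : ℂ)

lemma e_apply (k j : ℕ) : (e k) j = if j = k then 1 else 0 := by
  classical
  simp [e, Pi.single_apply]

lemma inner_e_left (k : ℕ) (x : E) : ⟪e k, x⟫_ℂ = x k := by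
  classical
  rw [e, lp.inner_single_left]
  simp

lemma sum_apply (s : Finset ℕ) (f : ℕ → E) (j : ℕ) : (∑ k ∈ s, f k : E) j = ∑ k ∈ s, (f k) j := by
  classical
  induction s using Finset.induction_on with
  | empty => simp
  | insert a s ha ih => rw [Finset.sum_insert ha, Finset.sum_insert ha, ← ih]; rfl

/-- the projections -/
noncomputable def PP (n : ℕ) : E →L[ℂ] E :=
  ∑ k ∈ Finset.range (n + 1), (innerSL ℂ (e k)).smulRight (e k)

/-- the flips -/
noncomputable def WW (n : ℕ) : E →L[ℂ] E :=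
  ∑ k ∈ Finset.range (n + 1), (innerSL ℂ (e k)).smulRight (e (n - k))

lemma PP_apply (n : ℕ) (x : E) (j : ℕ) : (PP n x) j = if j ≤ n then x j else 0 := by
  classical
  rw [PP, _root_.sum_apply, sum_apply]
  have h : ∀ k ∈ Finset.range (n + 1), (((innerSL ℂ (e k)).smulRight (e k)) x : E) j =
      if j = k then x j else 0 := by
    intro k _
    rw [ContinuousLinearMap.smulRight_apply, innerSL_apply_apply, inner_e_left]
    change x k * (e k) j = _
    rw [e_apply]
    split_ifs with h
    · subst h; simp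
    · simp
  rw [Finset.sum_congr rfl h, Finset.sum_ite_eq]
  simp only [Finset.mem_range, Nat.lt_succ_iff]

lemma WW_apply (n : ℕ) (x : E) (j : ℕ) : (WW n x) j = if j ≤ n then x (n - j) else 0 := by
  classical
  rw [WW, _root_.sum_apply, sum_apply]
  have h : ∀ k ∈ Finset.range (n + 1), (((innerSL ℂ (e k)).smulRight (e (n - k))) x : E) j =
      if n - j = k then (if j ≤ n then x (n - j) else 0) else 0 := by
    intro k hk
    rw [Finset.mem_range, Nat.lt_succ_iff] at hk
    rw [ContinuousLinearMap.smulRight_apply, innerSL_apply_apply, inner_e_left]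
    change x k * (e (n - k)) j = _
    rw [e_apply]
    by_cases h1 : j = n - k
    · subst h1
      have h2 : n - (n - k) = k := by omega
      simp [h2]
    · rw [if_neg h1]
      by_cases h2 : n - j = k
      · rw [if_pos h2]
        by_cases h3 : j ≤ n
        · omega
        · rw [if_neg h3]; simp
      · rw [if_neg h2]; simp
  rw [Finset.sum_congr rfl h, Finset.sum_ite_eq]
  have : n - j ∈ Finset.range (n + 1) := by simp only [Finset.mem_range]; omega
  rw [if_pos this]

lemma ext_coord {x y : E} (h : ∀ j, x j = y j) : x = y := by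
  apply lp.ext
  funext j
  exact h j

lemma PP_PP (n : ℕ) (x : E) : PP n (PP n x) = PP n x := by
  apply ext_coord
  intro j
  rw [PP_apply, PP_apply]
  split_ifs <;> rfl

lemma WW_WW (n : ℕ) (x : E) : WW n (WW n x) = PP n x := by
  apply ext_coord
  intro j
  rw [PP_apply, WW_apply]
  split_ifs with h
  · rw [WW_apply, if_pos (Nat.sub_le _ _)]
    have h2 : n - (n - j) = j := by omega
    rw [h2]
  · rfl

lemma PP_WW (n : ℕ) (x : E) : PP n (WW n x) = WW n x := by
  apply ext_coord
  intro j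
  rw [PP_apply, WW_apply]
  split_ifs <;> rfl

lemma WW_PP (n : ℕ) (x : E) : WW n (PP n x) = WW n x := by
  apply ext_coord
  intro j
  rw [WW_apply, WW_apply]
  split_ifs with h
  · rw [PP_apply, if_pos (Nat.sub_le _ _)]
  · rfl

lemma hasSum_inner' (x y : E) : HasSum (fun i => y i * conj (x i)) ⟪x, y⟫_ℂ := by
  have := lp.hasSum_inner (𝕜 := ℂ) x y
  simpa [RCLike.inner_apply] using this

/-- the projections are self-adjoint -/
lemma PP_symm (n : ℕ) (x y : E) : ⟪PP n x, y⟫_ℂ = ⟪x, PP n y⟫_ℂ := by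
  refine (hasSum_inner' (PP n x) y).unique ?_
  convert hasSum_inner' x (PP n y) using 2 with i
  rw [PP_apply, PP_apply]
  split_ifs <;> simp

lemma inner_eq_sum {x y : E} {n : ℕ} (h : ∀ i, n < i → y i = 0) :
    ⟪x, y⟫_ℂ = ∑ i ∈ Finset.range (n + 1), y i * conj (x i) := by
  refine (hasSum_inner' x y).unique ?_
  apply hasSum_sum_of_ne_finset_zero
  intro i hi
  rw [Finset.mem_range, not_lt] at hi
  rw [h i (by omega), zero_mul]

lemma WW_symm (n : ℕ) (x y : E) : ⟪WW n x, y⟫_ℂ = ⟪x, WW n y⟫_ℂ := by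
  have h1 : ⟪WW n x, y⟫_ℂ = ⟪WW n x, PP n y⟫_ℂ := by
    rw [← PP_symm, PP_WW]
  rw [h1, inner_eq_sum (n := n) (x := WW n x) (y := PP n y)
    (fun i hi => by rw [PP_apply, if_neg (by omega)]),
    inner_eq_sum (n := n) (x := x) (y := WW n y)
    (fun i hi => by rw [WW_apply, if_neg (by omega)])]
  rw [← Finset.sum_range_reflect]
  apply Finset.sum_congr rfl
  intro i hi
  rw [Finset.mem_range] at hi
  have h2 : n + 1 - 1 - i = n - i := by omega
  have h3 : n - (n - i) = i := by omega
  rw [h2, PP_apply, WW_apply, WW_apply, if_pos (Nat.sub_le _ _), if_pos (Nat.sub_le _ _),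
    if_pos (by omega), h3]

lemma norm_PP_le (n : ℕ) (x : E) : ‖PP n x‖ ≤ ‖x‖ := by
  have h : ‖PP n x‖ * ‖PP n x‖ ≤ ‖PP n x‖ * ‖x‖ := by
    have h1 : ‖PP n x‖ * ‖PP n x‖ = ‖⟪PP n x, PP n x⟫_ℂ‖ := by
      rw [inner_self_eq_norm_sq_to_K]
      simp [sq]
    rw [h1, ← PP_symm, PP_PP]
    exact norm_inner_le_norm _ _
  rcases (norm_nonneg (PP n x)).eq_or_lt with h0 | h0
  · rw [← h0]; exact norm_nonneg _
  · exact le_of_mul_le_mul_left h h0

lemma norm_WW_le (n : ℕ) (x : E) : ‖WW n x‖ ≤ ‖x‖ := by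
  have h1 : ‖WW n x‖ * ‖WW n x‖ = ‖⟪WW n x, WW n x⟫_ℂ‖ := by
    rw [inner_self_eq_norm_sq_to_K]
    simp [sq]
  have h : ‖WW n x‖ * ‖WW n x‖ ≤ ‖x‖ * ‖x‖ := by
    rw [h1, WW_symm, WW_WW]
    refine (norm_inner_le_norm _ _).trans ?_
    exact mul_le_mul_of_nonneg_left (norm_PP_le n x) (norm_nonneg _)
  exact abs_le_of_sq_le_sq' (by nlinarith) (norm_nonneg _) |>.2

lemma tendsto_PP (x : E) : Tendsto (fun n => PP n x) atTop (𝓝 x) := by
  classical
  have h := (lp.hasSum_single (E := fun _ : ℕ => ℂ) (p := 2) (by norm_num) x).tendsto_sum_nat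
  have h2 := h.comp (tendsto_add_atTop_nat 1)
  refine h2.congr (fun n => ?_)
  apply ext_coord
  intro j
  rw [PP_apply]
  simp only [Function.comp]
  rw [sum_apply]
  have h3 : ∀ k ∈ Finset.range (n + 1), (lp.single 2 k (x k) : E) j = if j = k then x j else 0 := by
    intro k _
    rw [lp.coeFn_single, Pi.single_apply]
    split_ifs with h
    · rw [h]
    · rfl
  rw [Finset.sum_congr rfl h3, Finset.sum_ite_eq]
  simp only [Finset.mem_range, Nat.lt_succ_iff]

end Pool.Agent.TH259.FS
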