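import Mathlib
import Pool.Agent.TH259.FS.Op

set_option autoImplicit false

/-!
Finite sections of a lower triangular Toeplitz isometry with real entries.
-/

namespace Pool.Agent.TH259.FS

open Filter Topology ComplexConjugate
open scoped InnerProductSpace

/-- Hypotheses on the coefficients of an inner function with real coefficients. -/
structure Sym (c : ℤ → ℂ) : Prop where
  real : ∀ k, conj (c k) = c k
  neg : ∀ k, k < 0 → c k = 0
  orth : ∀ m : ℤ, HasSum (fun i : ℤ => c i * conj (c (i - m))) (if m = 0 then 1 else 0)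

variable {c : ℤ → ℂ}

lemma Sym.summable (h : Sym c) : Summable (fun i : ℤ => ‖c i‖ ^ 2) := by
  have h0 := (h.orth 0).summable.norm
  refine h0.congr (fun i => ?_)
  rw [sub_zero, norm_mul, RCLike.norm_conj, sq]

lemma Sym.mem (h : Sym c) (k : ℕ) : Memℓp (fun j : ℕ => c ((j : ℤ) - (k : ℤ))) 2 := by
  apply memℓp_gen
  have h1 : Function.Injective (fun j : ℕ => (j : ℤ) - (k : ℤ)) := by
    intro a b hab
    simp only [sub_left_inj, Nat.cast_inj] at hab
    exact hab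
  have h2 := h.summable.comp_injective h1
  refine h2.congr (fun i => ?_)
  simp [Function.comp]

/-- the columns -/
noncomputable def Sym.col (h : Sym c) (k : ℕ) : E := ⟨fun j : ℕ => c ((j : ℤ) - (k : ℤ)), h.mem k⟩

lemma Sym.col_apply (h : Sym c) (k j : ℕ) : (h.col k) j = c ((j : ℤ) - (k : ℤ)) := rfl

lemma Sym.inner_col (h : Sym c) (k l : ℕ) : ⟪h.col k, h.col l⟫_ℂ = if k = l then 1 else 0 := by
  have h1 := hasSum_inner' (h.col k) (h.col l)
  have h2 := h.orth ((k : ℤ) - (l : ℤ))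
  have h3 : HasSum (fun j : ℤ => c (j - l) * conj (c (j - k)))
      (if ((k : ℤ) - (l : ℤ)) = 0 then 1 else 0) := by
    have e1 := (Equiv.subRight (l : ℤ)).hasSum_iff.2 h2
    convert e1 using 1
    funext j
    simp only [Function.comp, Equiv.subRight_apply]
    congr 3
    ring
  have h4 : HasSum (fun j : ℕ => c ((j : ℤ) - l) * conj (c ((j : ℤ) - k)))
      (if ((k : ℤ) - (l : ℤ)) = 0 then 1 else 0) := by
    have hinj : Function.Injective (fun j : ℕ => (j : ℤ)) := fun a b hab => by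
      simpa using hab
    refine (hinj.hasSum_iff ?_).2 h3
    intro x hx
    have hx0 : x < 0 := by
      by_contra hcon
      push Not at hcon
      apply hx
      exact ⟨x.toNat, by simp [hcon]⟩
    have : x - (l : ℤ) < 0 := by omega
    rw [h.neg _ this, zero_mul]
  rw [h1.unique h4]
  have h6 : ((k : ℤ) - (l : ℤ)) = 0 ↔ k = l := by omega
  simp only [h6]

lemma Sym.orthonormal (h : Sym c) : Orthonormal ℂ h.col := by
  rw [orthonormal_iff_ite]
  intro i j
  exact h.inner_col i j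

/-- The Toeplitz operator. -/
noncomputable def Sym.T (h : Sym c) : E →L[ℂ] E :=
  (h.orthonormal.orthogonalFamily.linearIsometry).toContinuousLinearMap

lemma Sym.T_e (h : Sym c) (k : ℕ) : h.T (e k) = h.col k := by
  classical
  have := h.orthonormal.orthogonalFamily.linearIsometry_apply_single (i := k) (1 : ℂ)
  refine this.trans ?_
  rw [LinearIsometry.toSpanSingleton_apply, one_smul]

lemma Sym.T_e_apply (h : Sym c) (k j : ℕ) : (h.T (e k)) j = c ((j : ℤ) - (k : ℤ)) := by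
  rw [h.T_e]
  rfl

lemma Sym.norm_T (h : Sym c) (x : E) : ‖h.T x‖ = ‖x‖ :=
  (h.orthonormal.orthogonalFamily.linearIsometry).norm_map x

lemma Sym.inner_T (h : Sym c) (x y : E) : ⟪h.T x, h.T y⟫_ℂ = ⟪x, y⟫_ℂ :=
  (h.orthonormal.orthogonalFamily.linearIsometry).inner_map_map x y

/-- adjoint -/
noncomputable def Sym.Ta (h : Sym c) : E →L[ℂ] E := ContinuousLinearMap.adjoint h.T

lemma Sym.Ta_T (h : Sym c) (x : E) : h.Ta (h.T x) = x := by
  apply ext_inner_left ℂ
  intro y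
  rw [Sym.Ta, ContinuousLinearMap.adjoint_inner_right, h.inner_T]

lemma Sym.Ta_apply (h : Sym c) (x : E) (j : ℕ) : (h.Ta x) j = ⟪h.col j, x⟫_ℂ := by
  rw [← inner_e_left, Sym.Ta, ContinuousLinearMap.adjoint_inner_right, h.T_e]

lemma Sym.norm_Ta_le (h : Sym c) (x : E) : ‖h.Ta x‖ ≤ ‖x‖ := by
  have h1 : ‖h.Ta‖ ≤ 1 := by
    rw [Sym.Ta, LinearIsometryEquiv.norm_map]
    apply ContinuousLinearMap.opNorm_le_bound _ zero_le_one
    intro x
    rw [h.norm_T, one_mul]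
  calc ‖h.Ta x‖ ≤ ‖h.Ta‖ * ‖x‖ := ContinuousLinearMap.le_opNorm _ _
    _ ≤ 1 * ‖x‖ := mul_le_mul_of_nonneg_right h1 (norm_nonneg _)
    _ = ‖x‖ := one_mul _

lemma Sym.Ta_e_apply (h : Sym c) (k j : ℕ) : (h.Ta (e k)) j = c ((k : ℤ) - (j : ℤ)) := by
  rw [h.Ta_apply, ← inner_conj_symm, inner_e_left, h.col_apply, h.real]

lemma PP_eq_sum (n : ℕ) (x : E) : PP n x = ∑ k ∈ Finset.range (n + 1), x k • e k := by
  rw [PP, _root_.sum_apply]
  apply Finset.sum_congr rfl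
  intro k _
  rw [ContinuousLinearMap.smulRight_apply, innerSL_apply_apply, inner_e_left]

lemma Sym.T_PP (h : Sym c) (n : ℕ) (x : E) (j : ℕ) :
    (h.T (PP n x)) j = ∑ k ∈ Finset.range (n + 1), x k * c ((j : ℤ) - (k : ℤ)) := by
  rw [PP_eq_sum, map_sum, sum_apply]
  apply Finset.sum_congr rfl
  intro k _
  rw [map_smul]
  change x k * (h.T (e k)) j = _
  rw [h.T_e_apply]

lemma Sym.Ta_PP (h : Sym c) (n : ℕ) (x : E) (j : ℕ) :
    (h.Ta (PP n x)) j = ∑ k ∈ Finset.range (n + 1), x k * c ((k : ℤ) - (j : ℤ)) := by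
  rw [PP_eq_sum, map_sum, sum_apply]
  apply Finset.sum_congr rfl
  intro k _
  rw [map_smul]
  change x k * (h.Ta (e k)) j = _
  rw [h.Ta_e_apply]

/-- finite sections -/
noncomputable def Sym.Tn (h : Sym c) (n : ℕ) : E →L[ℂ] E := PP n * h.T * PP n

/-- finite sections of the adjoint -/
noncomputable def Sym.Tan (h : Sym c) (n : ℕ) : E →L[ℂ] E := PP n * h.Ta * PP n

lemma Sym.Tn_apply (h : Sym c) (n : ℕ) (x : E) : h.Tn n x = PP n (h.T (PP n x)) := rfl
lemma Sym.Tan_apply (h : Sym c) (n : ℕ) (x : E) : h.Tan n x = PP n (h.Ta (PP n x)) := rfl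

lemma Sym.flip (h : Sym c) (n : ℕ) (x : E) : WW n (h.Tn n (WW n x)) = h.Tan n x := by
  apply ext_coord
  intro j
  rw [Sym.Tan_apply, WW_apply, PP_apply]
  split_ifs with hj
  · rw [h.Ta_PP, h.Tn_apply, PP_apply, if_pos (Nat.sub_le _ _), h.T_PP,
      ← Finset.sum_range_reflect]
    apply Finset.sum_congr rfl
    intro k hk
    rw [Finset.mem_range] at hk
    have e1 : n + 1 - 1 - k = n - k := by omega
    have e2 : n - (n - k) = k := by omega
    rw [e1, WW_apply, if_pos (Nat.sub_le _ _), e2]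
    congr 2
    omega
  · rfl

lemma Sym.flip' (h : Sym c) (n : ℕ) (x : E) : WW n (h.Tan n (WW n x)) = h.Tn n x := by
  rw [← h.flip, WW_WW, WW_WW, h.Tn_apply, PP_PP, PP_PP, ← h.Tn_apply]

/-- the sequence A -/
noncomputable def Sym.A (h : Sym c) (n : ℕ) : E →L[ℂ] E := PP n - h.Tn n * h.Tan n

/-- the sequence B -/
noncomputable def Sym.B (h : Sym c) (n : ℕ) : E →L[ℂ] E := PP n - h.Tan n * h.Tn n

lemma Sym.A_apply (h : Sym c) (n : ℕ) (x : E) : h.A n x = PP n x - h.Tn n (h.Tan n x) := rfl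
lemma Sym.B_apply (h : Sym c) (n : ℕ) (x : E) : h.B n x = PP n x - h.Tan n (h.Tn n x) := rfl

lemma Sym.flipA (h : Sym c) (n : ℕ) (x : E) : WW n (h.A n (WW n x)) = h.B n x := by
  rw [h.A_apply, map_sub, h.B_apply, PP_WW, WW_WW]
  congr 1
  have h1 : h.Tn n (h.Tan n (WW n x)) = h.Tn n (WW n (WW n (h.Tan n (WW n x)))) := by
    rw [WW_WW, h.Tn_apply, h.Tn_apply, PP_PP]
  rw [h1, h.flip, h.flip']

lemma Sym.flipB (h : Sym c) (n : ℕ) (x : E) : WW n (h.B n (WW n x)) = h.A n x := by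
  rw [← h.flipA, WW_WW, WW_WW]
  have h1 : h.A n (PP n x) = h.A n x := by
    rw [h.A_apply, h.A_apply, PP_PP, h.Tan_apply, PP_PP, ← h.Tan_apply]
  have h2 : PP n (h.A n x) = h.A n x := by
    rw [h.A_apply, map_sub, PP_PP, h.Tn_apply, PP_PP]
  rw [h1, h2]

lemma Sym.norm_Tn_le (h : Sym c) (n : ℕ) (x : E) : ‖h.Tn n x‖ ≤ ‖x‖ := by
  rw [h.Tn_apply]
  exact (norm_PP_le n _).trans ((h.norm_T _).le.trans (norm_PP_le n _))

lemma Sym.norm_Tan_le (h : Sym c) (n : ℕ) (x : E) : ‖h.Tan n x‖ ≤ ‖x‖ := by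
  rw [h.Tan_apply]
  exact (norm_PP_le n _).trans ((h.norm_Ta_le _).trans (norm_PP_le n _))

lemma Sym.norm_A_le (h : Sym c) (n : ℕ) (x : E) : ‖h.A n x‖ ≤ 2 * ‖x‖ := by
  rw [h.A_apply]
  refine (norm_sub_le _ _).trans ?_
  have h1 := norm_PP_le n x
  have h2 := (h.norm_Tn_le n (h.Tan n x)).trans (h.norm_Tan_le n x)
  linarith

lemma Sym.norm_B_le (h : Sym c) (n : ℕ) (x : E) : ‖h.B n x‖ ≤ 2 * ‖x‖ := by
  rw [h.B_apply]
  refine (norm_sub_le _ _).trans ?_
  have h1 := norm_PP_le n x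
  have h2 := (h.norm_Tan_le n (h.Tn n x)).trans (h.norm_Tn_le n x)
  linarith

/-- strong convergence of bounded operators applied to convergent vectors -/
lemma tendsto_comp {S : ℕ → E →L[ℂ] E} {C : ℝ} (hS : ∀ n x, ‖S n x‖ ≤ C * ‖x‖) {x : ℕ → E} {y z : E}
    (hx : Tendsto x atTop (𝓝 y)) (hy : Tendsto (fun n => S n y) atTop (𝓝 z)) :
    Tendsto (fun n => S n (x n)) atTop (𝓝 z) := by
  have h1 : Tendsto (fun n => S n (x n - y)) atTop (𝓝 0) := by
    rw [tendsto_zero_iff_norm_tendsto_zero]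
    have h2 : Tendsto (fun n => C * ‖x n - y‖) atTop (𝓝 0) := by
      have h3 : Tendsto (fun n => x n - y) atTop (𝓝 (y - y)) := hx.sub_const y
      rw [sub_self] at h3
      have h4 := (h3.norm).const_mul C
      simpa using h4
    exact squeeze_zero (fun n => norm_nonneg _) (fun n => hS n _) h2
  have h5 := h1.add hy
  rw [zero_add] at h5
  refine h5.congr (fun n => ?_)
  rw [map_sub, sub_add_cancel]

lemma norm_PP_le' (n : ℕ) (x : E) : ‖PP n x‖ ≤ 1 * ‖x‖ := by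
  rw [one_mul]; exact norm_PP_le n x

lemma Sym.tendsto_Tn (h : Sym c) (x : E) : Tendsto (fun n => h.Tn n x) atTop (𝓝 (h.T x)) := by
  have h1 : Tendsto (fun n => h.T (PP n x)) atTop (𝓝 (h.T x)) :=
    (h.T.continuous.tendsto x).comp (tendsto_PP x)
  exact tendsto_comp norm_PP_le' h1 (tendsto_PP (h.T x))

lemma Sym.tendsto_Tan (h : Sym c) (x : E) : Tendsto (fun n => h.Tan n x) atTop (𝓝 (h.Ta x)) := by
  have h1 : Tendsto (fun n => h.Ta (PP n x)) atTop (𝓝 (h.Ta x)) :=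
    (h.Ta.continuous.tendsto x).comp (tendsto_PP x)
  exact tendsto_comp norm_PP_le' h1 (tendsto_PP (h.Ta x))

lemma Sym.tendsto_B (h : Sym c) (x : E) : Tendsto (fun n => h.B n x) atTop (𝓝 0) := by
  have h1 : Tendsto (fun n => h.Tan n (h.Tn n x)) atTop (𝓝 (h.Ta (h.T x))) :=
    tendsto_comp (C := 1) (fun n x => by rw [one_mul]; exact h.norm_Tan_le n x)
      (h.tendsto_Tn x) (h.tendsto_Tan _)
  rw [h.Ta_T] at h1
  have h2 := (tendsto_PP x).sub h1
  rw [sub_self] at h2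
  exact h2

lemma Sym.tendsto_A (h : Sym c) (x : E) :
    Tendsto (fun n => h.A n x) atTop (𝓝 (x - h.T (h.Ta x))) := by
  have h1 : Tendsto (fun n => h.Tn n (h.Tan n x)) atTop (𝓝 (h.T (h.Ta x))) :=
    tendsto_comp (C := 1) (fun n x => by rw [one_mul]; exact h.norm_Tn_le n x)
      (h.tendsto_Tan x) (h.tendsto_Tn _)
  exact (tendsto_PP x).sub h1

/-- The sequence `C = A B`. -/
noncomputable def Sym.C (h : Sym c) (n : ℕ) : E →L[ℂ] E := h.A n * h.B n

lemma Sym.C_apply (h : Sym c) (n : ℕ) (x : E) : h.C n x = h.A n (h.B n x) := rfl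

lemma Sym.tendsto_C (h : Sym c) (x : E) : Tendsto (fun n => h.C n x) atTop (𝓝 0) := by
  refine tendsto_comp (h.norm_A_le) (h.tendsto_B x) ?_
  simp

lemma Sym.PP_B (h : Sym c) (n : ℕ) (x : E) : PP n (h.B n x) = h.B n x := by
  rw [h.B_apply, map_sub, PP_PP, h.Tan_apply, PP_PP]

lemma Sym.B_PP (h : Sym c) (n : ℕ) (x : E) : h.B n (PP n x) = h.B n x := by
  rw [h.B_apply, h.B_apply, PP_PP, h.Tn_apply, PP_PP, ← h.Tn_apply]

lemma Sym.PP_A (h : Sym c) (n : ℕ) (x : E) : PP n (h.A n x) = h.A n x := by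
  rw [h.A_apply, map_sub, PP_PP, h.Tn_apply, PP_PP]

lemma Sym.A_PP (h : Sym c) (n : ℕ) (x : E) : h.A n (PP n x) = h.A n x := by
  rw [h.A_apply, h.A_apply, PP_PP, h.Tan_apply, PP_PP, ← h.Tan_apply]

lemma Sym.flipC (h : Sym c) (n : ℕ) (x : E) : WW n (h.C n (WW n x)) = h.B n (h.A n x) := by
  rw [h.C_apply, ← h.flipA n (h.A n x), ← h.flipB n x, WW_WW, h.PP_B]

lemma Sym.tendsto_flipC (h : Sym c) (x : E) :
    Tendsto (fun n => WW n (h.C n (WW n x))) atTop (𝓝 0) := by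
  have h1 : Tendsto (fun n => h.B n (h.A n x)) atTop (𝓝 0) :=
    tendsto_comp (h.norm_B_le) (h.tendsto_A x) (h.tendsto_B _)
  exact h1.congr (fun n => (h.flipC n x).symm)

end Pool.Agent.TH259.FS
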