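import Mathlib
import Pool.Agent.TH259.FS.Toep

set_option autoImplicit false

/-!
An inner function with real coefficients and zeros accumulating at the circle.
-/

namespace Pool.Agent.TH259.FS

open Filter Topology ComplexConjugate MeasureTheory AddCircle
open scoped InnerProductSpace

/-- the constant -/
noncomputable def κ : ℝ := Real.exp (-1)

lemma κ_pos : 0 < κ := Real.exp_pos _
lemma κ_lt : κ < 1 := by
  rw [κ, Real.exp_lt_one_iff]; norm_num

/-- the singular inner function -/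
noncomputable def S (z : ℂ) : ℂ := Complex.exp (-((1 + z) / (1 - z)))

/-- the Frostman shift -/
noncomputable def H (z : ℂ) : ℂ := (S z - κ) / (1 - κ * S z)

lemma re_cayley (z : ℂ) : ((1 + z) / (1 - z)).re = (1 - ‖z‖ ^ 2) / ‖1 - z‖ ^ 2 := by
  rw [Complex.div_re, ← Complex.normSq_eq_norm_sq, ← Complex.normSq_eq_norm_sq,
    Complex.normSq_apply z]
  simp only [Complex.add_re, Complex.one_re, Complex.sub_re, Complex.add_im, Complex.one_im,
    Complex.sub_im]
  ring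

lemma norm_S (z : ℂ) : ‖S z‖ = Real.exp (-((1 - ‖z‖ ^ 2) / ‖1 - z‖ ^ 2)) := by
  rw [S, Complex.norm_exp, Complex.neg_re, re_cayley]

lemma norm_S_le {z : ℂ} (hz : ‖z‖ ≤ 1) : ‖S z‖ ≤ 1 := by
  rw [norm_S, Real.exp_le_one_iff, neg_nonpos]
  apply div_nonneg _ (by positivity)
  nlinarith [norm_nonneg z]

lemma norm_S_eq {z : ℂ} (hz : ‖z‖ = 1) : ‖S z‖ = 1 := by
  rw [norm_S, hz]; simp

lemma den_ne {s : ℂ} (hs : ‖s‖ ≤ 1) : 1 - (κ : ℂ) * s ≠ 0 := by
  intro h
  have h1 : (κ : ℂ) * s = 1 := (sub_eq_zero.1 h).symm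
  have h2 : ‖(κ : ℂ) * s‖ = 1 := by rw [h1]; simp
  rw [norm_mul, Complex.norm_real, Real.norm_of_nonneg κ_pos.le] at h2
  nlinarith [κ_pos, κ_lt, norm_nonneg s]

lemma frostman_sq (s : ℂ) : ‖1 - (κ : ℂ) * s‖ ^ 2 - ‖s - κ‖ ^ 2 = (1 - κ ^ 2) * (1 - ‖s‖ ^ 2) := by
  rw [← Complex.normSq_eq_norm_sq, ← Complex.normSq_eq_norm_sq, ← Complex.normSq_eq_norm_sq,
    Complex.normSq_apply, Complex.normSq_apply, Complex.normSq_apply]
  simp
  ring

lemma norm_H_le {z : ℂ} (hz : ‖z‖ ≤ 1) : ‖H z‖ ≤ 1 := by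
  have h1 := norm_S_le hz
  have h2 := frostman_sq (S z)
  have h3 : 0 ≤ (1 - κ ^ 2) * (1 - ‖S z‖ ^ 2) := by
    apply mul_nonneg
    · nlinarith [κ_pos, κ_lt]
    · nlinarith [norm_nonneg (S z)]
  rw [H, norm_div]
  apply div_le_one_of_le₀ _ (norm_nonneg _)
  apply le_of_sq_le_sq _ (norm_nonneg _)
  linarith

lemma norm_H_eq {z : ℂ} (hz : ‖z‖ = 1) : ‖H z‖ = 1 := by
  have h1 := norm_S_eq hz
  have h2 := frostman_sq (S z)
  rw [h1] at h2
  rw [H, norm_div]
  have h3 : ‖S z - κ‖ = ‖1 - (κ : ℂ) * S z‖ := by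
    apply (sq_eq_sq₀ (norm_nonneg _) (norm_nonneg _)).1
    linarith
  rw [h3]
  apply div_self
  rw [norm_ne_zero_iff]
  exact den_ne h1.le

lemma H_conj (z : ℂ) : H (conj z) = conj (H z) := by
  have h1 : S (conj z) = conj (S z) := by
    rw [S, S, ← Complex.exp_conj]
    simp
  rw [H, H, h1]
  simp

lemma differentiableOn_H : DifferentiableOn ℂ H (Metric.ball 0 1) := by
  intro z hz
  rw [mem_ball_zero_iff] at hz
  have hz1 : 1 - z ≠ 0 := by
    intro h
    have : z = 1 := (sub_eq_zero.1 h).symm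
    rw [this] at hz
    simp at hz
  have hS : DifferentiableAt ℂ S z := by
    unfold S
    fun_prop (disch := assumption)
  have : DifferentiableAt ℂ H z := by
    unfold H
    apply DifferentiableAt.div
    · fun_prop
    · fun_prop
    · exact den_ne (norm_S_le hz.le)
  exact this.differentiableWithinAt

lemma continuousAt_H {z : ℂ} (hz : ‖z‖ = 1) (hz1 : z ≠ 1) : ContinuousAt H z := by
  have hz2 : 1 - z ≠ 0 := fun h => hz1 (sub_eq_zero.1 h).symm
  have hS : ContinuousAt S z := by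
    unfold S
    fun_prop (disch := assumption)
  unfold H
  apply ContinuousAt.div
  · fun_prop
  · fun_prop
  · exact den_ne (norm_S_le hz.le)

lemma measurable_H : Measurable H := by
  unfold H S
  fun_prop

/-- the zeros -/
noncomputable def zer (m : ℕ) : ℂ := (Real.pi * m * Complex.I) / (1 + Real.pi * m * Complex.I)

lemma den_zer_ne (m : ℕ) : (1 : ℂ) + Real.pi * m * Complex.I ≠ 0 := by
  intro h
  have := congrArg Complex.re h
  simp at this

lemma one_sub_zer (m : ℕ) : 1 - zer m = 1 / (1 + Real.pi * m * Complex.I) := by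
  rw [zer]
  field_simp [den_zer_ne m]
  ring

lemma S_zer (m : ℕ) : S (zer m) = κ := by
  have h1 : (1 + zer m) / (1 - zer m) = 1 + m * (2 * Real.pi * Complex.I) := by
    rw [one_sub_zer, zer]
    have := den_zer_ne m
    field_simp
    ring
  rw [S, h1, neg_add, Complex.exp_add]
  have h2 : Complex.exp (-(m * (2 * Real.pi * Complex.I))) = 1 := by
    rw [Complex.exp_neg, Complex.exp_nat_mul_two_pi_mul_I, inv_one]
  rw [h2, mul_one, κ, Complex.ofReal_exp]
  simp

lemma H_zer (m : ℕ) : H (zer m) = 0 := by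
  rw [H, S_zer, sub_self, zero_div]

lemma norm_zer (m : ℕ) : 1 - ‖zer m‖ ^ 2 = 1 / (1 + (Real.pi * m) ^ 2) := by
  rw [zer, norm_div, div_pow, ← Complex.normSq_eq_norm_sq, ← Complex.normSq_eq_norm_sq,
    Complex.normSq_apply, Complex.normSq_apply]
  simp
  have : (1 : ℝ) + Real.pi * m * (Real.pi * m) ≠ 0 := by positivity
  have h2 : (1 : ℝ) + (Real.pi * m) ^ 2 ≠ 0 := by positivity
  field_simp
  ring

lemma zer_small (δ : ℝ) (hδ : 0 < δ) : ∃ m : ℕ, ‖zer m‖ < 1 ∧ 1 - ‖zer m‖ ^ 2 < δ := by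
  obtain ⟨m, hm⟩ := exists_nat_gt (1 / δ)
  have hm1 : (1 : ℝ) / (1 + (Real.pi * m) ^ 2) < δ := by
    rw [div_lt_iff₀ (by positivity)]
    rw [div_lt_iff₀ hδ] at hm
    have hpi := Real.pi_gt_three
    have hm0 : (0 : ℝ) ≤ m := Nat.cast_nonneg m
    have h1 : (m : ℝ) ≤ 1 + (Real.pi * m) ^ 2 := by
      have : (m : ℝ) ≤ Real.pi * m := by nlinarith
      nlinarith [sq_nonneg (Real.pi * m - 1)]
    nlinarith
  refine ⟨m, ?_, ?_⟩
  · have h1 := norm_zer m
    have h2 : (0 : ℝ) < 1 / (1 + (Real.pi * m) ^ 2) := by positivity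
    have h3 : ‖zer m‖ ^ 2 < 1 := by linarith
    exact (sq_lt_one_iff₀ (norm_nonneg _)).1 h3
  · rw [norm_zer]; exact hm1

/-- Taylor coefficients -/
noncomputable def tc (n : ℕ) : ℂ := (n.factorial : ℂ)⁻¹ * iteratedDeriv n H 0

lemma hasSum_tc {z : ℂ} (hz : ‖z‖ < 1) : HasSum (fun n => tc n * z ^ n) (H z) := by
  have := Complex.hasSum_taylorSeries_on_ball differentiableOn_H (by simpa using hz : z ∈ Metric.ball 0 1)
  have h2 : (fun n : ℕ => (n.factorial : ℂ)⁻¹ • (z - 0) ^ n • iteratedDeriv n H 0) =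
      fun n => tc n * z ^ n := by
    funext n
    rw [tc, sub_zero, smul_eq_mul, smul_eq_mul]
    ring
  rw [← h2]
  exact this

end Pool.Agent.TH259.FS
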