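import Mathlib
import Pool.Agent.TH259.FS.Inner

set_option autoImplicit false

/-!
Fourier coefficients of the inner function.
-/

namespace Pool.Agent.TH259.FS

open Filter Topology ComplexConjugate MeasureTheory AddCircle
open scoped InnerProductSpace

/-- the circle -/
abbrev TT : Type := AddCircle (1 : ℝ)

/-- the coordinate function -/
noncomputable def zz (t : TT) : ℂ := (toCircle t : ℂ)

lemma norm_zz (t : TT) : ‖zz t‖ = 1 := Circle.norm_coe _

lemma zz_continuous : Continuous zz := by
  unfold zz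
  exact continuous_subtype_val.comp AddCircle.continuous_toCircle

lemma zz_pow (t : TT) (n : ℕ) : (fourier (n : ℤ) t : ℂ) = zz t ^ n := by
  rw [fourier_apply, toCircle_zsmul, zz]
  simp

lemma zz_ne_one {t : TT} (ht : t ≠ 0) : zz t ≠ 1 := by
  intro h
  apply ht
  apply AddCircle.injective_toCircle (T := (1 : ℝ)) one_ne_zero
  apply Circle.coe_injective
  rw [AddCircle.toCircle_zero]
  exact h

lemma zz_neg (t : TT) : zz (-t) = conj (zz t) := by
  rw [zz, zz, AddCircle.toCircle_neg, Circle.coe_inv_eq_conj]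

/-- boundary function -/
noncomputable def bet (t : TT) : ℂ := H (zz t)

lemma measurable_bet : Measurable bet := measurable_H.comp zz_continuous.measurable

lemma norm_bet (t : TT) : ‖bet t‖ = 1 := norm_H_eq (norm_zz t)

/-- dilated functions -/
noncomputable def betr (r : ℝ) (t : TT) : ℂ := H (r * zz t)

lemma norm_betr {r : ℝ} (h0 : 0 ≤ r) (h1 : r ≤ 1) (t : TT) : ‖betr r t‖ ≤ 1 := by
  apply norm_H_le
  rw [norm_mul, norm_zz, mul_one, Complex.norm_real, Real.norm_of_nonneg h0]
  exact h1

lemma summable_tc {r : ℝ} (h0 : 0 ≤ r) (h1 : r < 1) : Summable (fun n : ℕ => ‖tc n‖ * r ^ n) := by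
  have h := (hasSum_tc (z := (r : ℂ)) (by rwa [Complex.norm_real, Real.norm_of_nonneg h0])).summable.norm
  refine h.congr (fun n => ?_)
  rw [norm_mul, norm_pow, Complex.norm_real, Real.norm_of_nonneg h0]

/-- coefficient -/
noncomputable def cc (k : ℤ) : ℂ := if 0 ≤ k then tc k.toNat else 0

lemma coeff_betr {r : ℝ} (h0 : 0 ≤ r) (h1 : r < 1) (k : ℤ) :
    fourierCoeff (betr r) k = cc k * (r : ℂ) ^ k.toNat := by
  -- the series
  have hb : ∀ t, HasSum (fun n : ℕ => fourier (-k) t • ((tc n * r ^ n) * fourier (n : ℤ) t))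
      (fourier (-k) t • betr r t) := by
    intro t
    have h := (hasSum_tc (z := (r : ℂ) * zz t) (by
      rw [norm_mul, norm_zz, mul_one, Complex.norm_real, Real.norm_of_nonneg h0]; exact h1))
    have h2 := h.mul_left (fourier (-k) t : ℂ)
    have e1 : (fun n : ℕ => fourier (-k) t • ((tc n * r ^ n) * fourier (n : ℤ) t)) =
        fun n : ℕ => (fourier (-k) t : ℂ) * (tc n * ((r : ℂ) * zz t) ^ n) := by
      funext n
      rw [zz_pow, smul_eq_mul, mul_pow]
      ring
    rw [e1]
    exact h2
  have hs : HasSum (fun n : ℕ => ∫ t : TT, fourier (-k) t • ((tc n * r ^ n) * fourier (n : ℤ) t)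
      ∂haarAddCircle) (∫ t : TT, fourier (-k) t • betr r t ∂haarAddCircle) := by
    refine hasSum_integral_of_dominated_convergence (fun (n : ℕ) (t : TT) => ‖tc n‖ * r ^ n) ?_ ?_ ?_ ?_ ?_
    · intro n
      apply Continuous.aestronglyMeasurable
      fun_prop
    · intro n
      refine Eventually.of_forall (fun t => ?_)
      rw [norm_smul, norm_mul, norm_mul, norm_pow, Complex.norm_real, Real.norm_of_nonneg h0,
        fourier_apply, fourier_apply, Circle.norm_coe, Circle.norm_coe, one_mul, mul_one]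
    · exact Eventually.of_forall (fun t => summable_tc h0 h1)
    · exact integrable_const _
    · exact Eventually.of_forall hb
  have ht : ∀ n : ℕ, (∫ t : TT, fourier (-k) t • ((tc n * r ^ n) * fourier (n : ℤ) t)
      ∂haarAddCircle) = if k = (n : ℤ) then tc n * r ^ n else 0 := by
    intro n
    have e1 : (∫ t : TT, fourier (-k) t • ((tc n * r ^ n) * fourier (n : ℤ) t) ∂haarAddCircle) =
        fourierCoeff (fun t : TT => (tc n * r ^ n) * fourier (n : ℤ) t) k := rfl
    rw [e1, fourierCoeff.const_mul, fourierCoeff_fourier, Pi.single_apply]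
    split_ifs <;> simp
  simp only [ht] at hs
  have hgoal : HasSum (fun n : ℕ => if k = (n : ℤ) then tc n * (r : ℂ) ^ n else 0)
      (cc k * (r : ℂ) ^ k.toNat) := by
    by_cases hk : 0 ≤ k
    · lift k to ℕ using hk
      have := hasSum_ite_eq k (tc k * (r : ℂ) ^ k)
      rw [cc, if_pos (Int.natCast_nonneg k), Int.toNat_natCast]
      have e2 : (fun n : ℕ => if (k : ℤ) = (n : ℤ) then tc n * (r : ℂ) ^ n else 0) =
          fun n : ℕ => if n = k then tc k * (r : ℂ) ^ k else 0 := by
        funext n
        by_cases h : n = k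
        · subst h; simp
        · rw [if_neg h, if_neg (by intro hh; exact h (by exact_mod_cast hh.symm))]
      rw [e2]
      exact this
    · rw [cc, if_neg hk, zero_mul]
      have e2 : (fun n : ℕ => if k = (n : ℤ) then tc n * (r : ℂ) ^ n else 0) = fun _ => 0 := by
        funext n
        rw [if_neg (by intro h; omega)]
      rw [e2]
      exact hasSum_zero
  exact hs.unique hgoal

lemma ae_ne_zero : ∀ᵐ t : TT ∂haarAddCircle, t ≠ 0 := by
  have h : haarAddCircle ({0} : Set TT) = 0 := by
    have hv : (volume : Measure TT) {0} = 0 := by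
      rw [← Metric.closedBall_zero, AddCircle.volume_closedBall]
      simp
    rw [AddCircle.volume_eq_smul_haarAddCircle] at hv
    simpa using hv
  exact compl_mem_ae_iff.2 h

theorem coeff_bet (k : ℤ) : fourierCoeff bet k = cc k := by
  -- a sequence of radii
  obtain ⟨r, hr⟩ : ∃ r : ℕ → ℝ, r = fun n : ℕ => 1 - 1 / ((n : ℝ) + 1) := ⟨_, rfl⟩
  have hr0 : ∀ n, 0 ≤ r n := by
    intro n
    rw [hr]
    have : 1 / ((n : ℝ) + 1) ≤ 1 := by
      rw [div_le_one (by positivity)]
      have : (0 : ℝ) ≤ n := Nat.cast_nonneg n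
      linarith
    simp only
    linarith
  have hr1 : ∀ n, r n < 1 := by
    intro n
    rw [hr]
    have : 0 < 1 / ((n : ℝ) + 1) := by positivity
    simp only
    linarith
  have hrt : Tendsto r atTop (𝓝 1) := by
    have h1 := tendsto_one_div_add_atTop_nhds_zero_nat (𝕜 := ℝ)
    have h2 := h1.const_sub 1
    rw [sub_zero] at h2
    rw [hr]
    exact h2
  have hrc : Tendsto (fun n => (r n : ℂ)) atTop (𝓝 1) := by
    have := (Complex.continuous_ofReal.tendsto 1).comp hrt
    simpa [Function.comp_def] using this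
  have h1 : Tendsto (fun n => fourierCoeff (betr (r n)) k) atTop (𝓝 (fourierCoeff bet k)) := by
    unfold fourierCoeff
    refine tendsto_integral_of_dominated_convergence (fun _ => 1) ?_ ?_ ?_ ?_
    · intro n
      change AEStronglyMeasurable ((fun t : TT => (fourier (-k) t : ℂ)) • (betr (r n))) _
      apply AEStronglyMeasurable.smul
      · exact (map_continuous (fourier (-k))).aestronglyMeasurable
      · apply Measurable.aestronglyMeasurable
        exact measurable_H.comp (measurable_const.mul zz_continuous.measurable)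
    · exact integrable_const _
    · intro n
      refine Eventually.of_forall (fun t => ?_)
      rw [norm_smul, fourier_apply, Circle.norm_coe, one_mul]
      exact norm_betr (hr0 n) (hr1 n).le t
    · filter_upwards [ae_ne_zero] with t ht
      apply Tendsto.const_smul
      have hc := continuousAt_H (norm_zz t) (zz_ne_one ht)
      have h2 : Tendsto (fun n => (r n : ℂ) * zz t) atTop (𝓝 (zz t)) := by
        have := hrc.mul_const (zz t)
        rwa [one_mul] at this
      exact hc.tendsto.comp h2
  have h2 : Tendsto (fun n => fourierCoeff (betr (r n)) k) atTop (𝓝 (cc k)) := by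
    have h3 : Tendsto (fun n => cc k * (r n : ℂ) ^ k.toNat) atTop (𝓝 (cc k * 1 ^ k.toNat)) :=
      (hrc.pow _).const_mul _
    rw [one_pow, mul_one] at h3
    refine h3.congr (fun n => ?_)
    rw [coeff_betr (hr0 n) (hr1 n)]
  exact tendsto_nhds_unique h1 h2

lemma cc_neg (k : ℤ) (hk : k < 0) : cc k = 0 := by
  rw [cc, if_neg (by omega)]

lemma cc_zero {μ : ℂ} (hμ : ‖μ‖ < 1) : HasSum (fun m : ℕ => cc (m : ℤ) * μ ^ m) (H μ) := by
  have h1 : (fun m : ℕ => cc (m : ℤ) * μ ^ m) = fun m => tc m * μ ^ m := by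
    funext m
    rw [cc, if_pos (Int.natCast_nonneg m), Int.toNat_natCast]
  rw [h1]
  exact hasSum_tc hμ

lemma memLp_bet (p : ENNReal) : MemLp bet p (haarAddCircle : Measure TT) :=
  (memLp_top_of_bound measurable_bet.aestronglyMeasurable 1
    (Eventually.of_forall fun t => (norm_bet t).le)).mono_exponent le_top

lemma bet_neg (t : TT) : bet (-t) = conj (bet t) := by
  rw [bet, bet, zz_neg, H_conj]

lemma cc_real (k : ℤ) : conj (cc k) = cc k := by
  rw [← coeff_bet]
  unfold fourierCoeff
  rw [← integral_conj]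
  have h1 : ∀ t : TT, conj ((fourier (-k) t : ℂ) • bet t) = (fourier (-k) (-t) : ℂ) • bet (-t) := by
    intro t
    rw [smul_eq_mul, map_mul, bet_neg, smul_eq_mul]
    congr 1
    rw [← fourier_neg, fourier_apply, fourier_apply]
    congr 2
    simp
  simp_rw [h1]
  have hinv : (haarAddCircle : Measure TT).IsNegInvariant := by infer_instance
  exact integral_neg_eq_self (fun t : TT => (fourier (-k) t : ℂ) • bet t) haarAddCircle

lemma cc_orth (m : ℤ) : HasSum (fun i : ℤ => cc i * conj (cc (i - m))) (if m = 0 then 1 else 0) := by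
  have hf : MemLp bet 2 (haarAddCircle : Measure TT) := memLp_bet 2
  have hgb : ∀ t : TT, ‖(fourier m t : ℂ) * bet t‖ ≤ 1 := by
    intro t
    rw [norm_mul, norm_bet, fourier_apply, Circle.norm_coe, one_mul]
  have hgm : AEStronglyMeasurable (fun t : TT => (fourier m t : ℂ) * bet t)
      (haarAddCircle : Measure TT) :=
    (map_continuous (fourier m)).aestronglyMeasurable.mul measurable_bet.aestronglyMeasurable
  have hg : MemLp (fun t : TT => (fourier m t : ℂ) * bet t) 2 (haarAddCircle : Measure TT) :=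
    (memLp_top_of_bound hgm 1 (Eventually.of_forall hgb)).mono_exponent le_top
  have key := fourierBasis.hasSum_inner_mul_inner (hg.toLp _) (hf.toLp _)
  have e1 : ∀ i : ℤ, ⟪fourierBasis i, hf.toLp _⟫_ℂ = cc i := by
    intro i
    rw [← HilbertBasis.repr_apply_apply, fourierBasis_repr, ← coeff_bet,
      fourierCoeff_congr_ae hf.coeFn_toLp]
  have e2 : ∀ i : ℤ, ⟪fourierBasis i, hg.toLp _⟫_ℂ = cc (i - m) := by
    intro i
    rw [← HilbertBasis.repr_apply_apply, fourierBasis_repr, ← coeff_bet,
      fourierCoeff_congr_ae hg.coeFn_toLp]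
    unfold fourierCoeff
    congr 1
    funext t
    rw [smul_eq_mul, smul_eq_mul, ← mul_assoc, ← fourier_add]
    congr 2
    congr 1
    ring
  have e3 : ⟪hg.toLp _, hf.toLp _⟫_ℂ = if m = 0 then 1 else 0 := by
    rw [MeasureTheory.L2.inner_def]
    have h1 : (∫ t : TT, ⟪(hg.toLp _) t, (hf.toLp _) t⟫_ℂ ∂haarAddCircle) =
        fourierCoeff (fourier 0 : TT → ℂ) m := by
      unfold fourierCoeff
      apply integral_congr_ae
      filter_upwards [hg.coeFn_toLp, hf.coeFn_toLp] with t h2 h3
      rw [h2, h3, RCLike.inner_apply, map_mul, fourier_neg, fourier_zero, smul_eq_mul, mul_one]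
      have h4 : bet t * conj (bet t) = 1 := by
        rw [Complex.mul_conj, Complex.normSq_eq_norm_sq, norm_bet]
        simp
      calc bet t * (conj (fourier m t : ℂ) * conj (bet t)) =
          (bet t * conj (bet t)) * conj (fourier m t : ℂ) := by ring
        _ = conj (fourier m t : ℂ) := by rw [h4, one_mul]
    rw [h1, fourierCoeff_fourier, Pi.single_apply]
  rw [e3] at key
  have e4 : (fun i : ℤ => cc i * conj (cc (i - m))) =
      fun i : ℤ => ⟪hg.toLp _, fourierBasis i⟫_ℂ * ⟪fourierBasis i, hf.toLp _⟫_ℂ := by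
    funext i
    rw [e1, ← inner_conj_symm, e2, mul_comm]
  rw [e4]
  exact key

theorem cc_sym : Sym cc := ⟨cc_real, cc_neg, cc_orth⟩

lemma hvol : (volume : Measure TT) = haarAddCircle := by
  rw [AddCircle.volume_eq_smul_haarAddCircle]
  simp

lemma memLp_bet' : MemLp bet ⊤ (volume : Measure TT) := by
  rw [hvol]
  exact memLp_bet ⊤

lemma coeff_bet_Lp (k : ℤ) : fourierCoeff (⇑(memLp_bet'.toLp bet) : TT → ℂ) k = cc k := by
  rw [← coeff_bet]
  have h : (⇑(memLp_bet'.toLp bet) : TT → ℂ) =ᵐ[haarAddCircle] bet := by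
    rw [← hvol]
    exact memLp_bet'.coeFn_toLp
  rw [fourierCoeff_congr_ae h]

lemma memLp_betc : MemLp (fun t : TT => conj (bet t)) ⊤ (volume : Measure TT) :=
  memLp_top_of_bound (Complex.continuous_conj.measurable.comp measurable_bet).aestronglyMeasurable 1
    (Eventually.of_forall fun t => by rw [RCLike.norm_conj]; exact (norm_bet t).le)

lemma coeff_betc_Lp (k : ℤ) :
    fourierCoeff (⇑(memLp_betc.toLp (fun t : TT => conj (bet t))) : TT → ℂ) k = cc (-k) := by
  have h : (⇑(memLp_betc.toLp (fun t : TT => conj (bet t))) : TT → ℂ) =ᵐ[haarAddCircle]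
      fun t => conj (bet t) := by
    rw [← hvol]
    exact memLp_betc.coeFn_toLp
  rw [fourierCoeff_congr_ae h, ← cc_real, ← coeff_bet]
  unfold fourierCoeff
  rw [← integral_conj]
  congr 1
  funext t
  rw [smul_eq_mul, smul_eq_mul, map_mul, ← fourier_neg, neg_neg]

lemma coeff_one_Lp (k : ℤ) :
    fourierCoeff (⇑((memLp_const (1 : ℂ) : MemLp (fun _ : TT => (1 : ℂ)) ⊤ volume).toLp _) :
      TT → ℂ) k = if k = 0 then 1 else 0 := by
  have h : (⇑((memLp_const (1 : ℂ) : MemLp (fun _ : TT => (1 : ℂ)) ⊤ volume).toLp _) :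
      TT → ℂ) =ᵐ[haarAddCircle] (fourier 0 : TT → ℂ) := by
    rw [← hvol]
    filter_upwards [(memLp_const (1 : ℂ) : MemLp (fun _ : TT => (1 : ℂ)) ⊤ volume).coeFn_toLp]
      with t ht
    rw [ht, fourier_zero]
  rw [fourierCoeff_congr_ae h, fourierCoeff_fourier, Pi.single_apply]

end Pool.Agent.TH259.FS
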