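import Mathlib
import Pool.Agent.TH259.FS.Toep

set_option autoImplicit false

/-!
The lower bound for the norms of the sequence `C`, and the proof that it is not in the ideal.
-/

namespace Pool.Agent.TH259.FS

open Filter Topology ComplexConjugate
open scoped InnerProductSpace

variable {c : ℤ → ℂ}

lemma Sym.lowtri (h : Sym c) (n : ℕ) (x : E) : PP n (h.T (PP n x)) = PP n (h.T x) := by
  apply ext_coord
  intro j
  rw [PP_apply, PP_apply]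
  split_ifs with hj
  · have h1 : (h.T (x - PP n x)) j = 0 := by
      rw [← inner_e_left]
      have h2 : ⟪e j, h.T (x - PP n x)⟫_ℂ = ⟪h.Ta (e j), x - PP n x⟫_ℂ := by
        rw [Sym.Ta, ContinuousLinearMap.adjoint_inner_left]
      rw [h2]
      refine (hasSum_inner' _ _).unique ?_
      convert hasSum_zero using 2 with i
      change (x i - (PP n x) i) * conj ((h.Ta (e j)) i) = 0
      rw [PP_apply, h.Ta_e_apply]
      by_cases hi : i ≤ n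
      · rw [if_pos hi, sub_self, zero_mul]
      · have : c ((j : ℤ) - (i : ℤ)) = 0 := h.neg _ (by omega)
        rw [this, map_zero, mul_zero]
    rw [map_sub] at h1
    change (h.T x) j - (h.T (PP n x)) j = 0 at h1
    exact (sub_eq_zero.1 h1).symm
  · rfl

/-- the approximate eigenvector property -/
lemma Sym.norm_A_sub (h : Sym c) (n : ℕ) {v : E} (hv : h.Ta v = 0) :
    ‖h.A n v - PP n v‖ ≤ ‖v - PP n v‖ := by
  have h1 : h.A n v - PP n v = PP n (h.T (h.Ta (v - PP n v))) := by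
    rw [h.A_apply, h.Tn_apply, h.Tan_apply, PP_PP, h.lowtri, map_sub h.Ta, hv, zero_sub, map_neg,
      map_neg]
    abel
  rw [h1]
  refine (norm_PP_le _ _).trans ?_
  rw [h.norm_T]
  exact h.norm_Ta_le _

lemma Sym.inner_Tn (h : Sym c) (n : ℕ) (x y : E) : ⟪h.Tn n x, y⟫_ℂ = ⟪x, h.Tan n y⟫_ℂ := by
  rw [h.Tn_apply, h.Tan_apply, PP_symm, ← PP_symm n x, Sym.Ta,
    ContinuousLinearMap.adjoint_inner_right]

lemma Sym.inner_Tan (h : Sym c) (n : ℕ) (x y : E) : ⟪h.Tan n x, y⟫_ℂ = ⟪x, h.Tn n y⟫_ℂ := by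
  rw [← inner_conj_symm, ← h.inner_Tn, inner_conj_symm]

lemma Sym.inner_A (h : Sym c) (n : ℕ) (x y : E) : ⟪h.A n x, y⟫_ℂ = ⟪x, h.A n y⟫_ℂ := by
  rw [h.A_apply, h.A_apply, inner_sub_left, inner_sub_right, PP_symm, h.inner_Tn, h.inner_Tan]

lemma summable_geo {μ : ℂ} (hμ : ‖μ‖ < 1) : Summable (fun j : ℕ => (‖μ‖ ^ 2) ^ j) := by
  apply summable_geometric_of_lt_one (by positivity)
  nlinarith [norm_nonneg μ]

/-- geometric vector -/
noncomputable def geo (μ : ℂ) (hμ : ‖μ‖ < 1) : E := ⟨fun j : ℕ => μ ^ j, by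
  apply memℓp_gen
  refine (summable_geo hμ).congr (fun i => ?_)
  simp [← pow_mul, mul_comm]⟩

lemma geo_apply (μ : ℂ) (hμ : ‖μ‖ < 1) (j : ℕ) : (geo μ hμ) j = μ ^ j := rfl

lemma mul_conj_pow (μ : ℂ) (i : ℕ) : μ ^ i * conj (μ ^ i) = (((‖μ‖ ^ 2) ^ i : ℝ) : ℂ) := by
  rw [Complex.mul_conj, Complex.normSq_eq_norm_sq, norm_pow, ← pow_mul, ← pow_mul, mul_comm]

lemma norm_sq_of_inner {x : E} {r : ℝ} (h : ⟪x, x⟫_ℂ = (r : ℂ)) : ‖x‖ ^ 2 = r := by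
  rw [inner_self_eq_norm_sq_to_K] at h
  apply Complex.ofReal_injective
  rw [← h]
  simp

lemma norm_geo (μ : ℂ) (hμ : ‖μ‖ < 1) : ‖geo μ hμ‖ ^ 2 = (1 - ‖μ‖ ^ 2)⁻¹ := by
  apply norm_sq_of_inner
  refine (hasSum_inner' _ _).unique ?_
  have h1 : HasSum (fun j : ℕ => (‖μ‖ ^ 2) ^ j) (1 - ‖μ‖ ^ 2)⁻¹ :=
    hasSum_geometric_of_lt_one (by positivity) (by nlinarith [norm_nonneg μ])
  have h2 := Complex.hasSum_ofReal.2 h1
  convert h2 using 2 with i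
  rw [geo_apply, mul_conj_pow]

lemma norm_geo_tail (μ : ℂ) (hμ : ‖μ‖ < 1) (n : ℕ) :
    ‖geo μ hμ - PP n (geo μ hμ)‖ ^ 2 = (‖μ‖ ^ (n + 1)) ^ 2 * (1 - ‖μ‖ ^ 2)⁻¹ := by
  apply norm_sq_of_inner
  refine (hasSum_inner' _ _).unique ?_
  have h1 : HasSum (fun j : ℕ => (‖μ‖ ^ 2) ^ j) (1 - ‖μ‖ ^ 2)⁻¹ :=
    hasSum_geometric_of_lt_one (by positivity) (by nlinarith [norm_nonneg μ])
  have h2 := Complex.hasSum_ofReal.2 (h1.mul_left ((‖μ‖ ^ (n + 1)) ^ 2))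
  have hinj : Function.Injective (fun j : ℕ => j + (n + 1)) := fun a b hab => by
    simpa using hab
  refine (hinj.hasSum_iff ?_).1 ?_
  · intro x hx
    have hx0 : x ≤ n := by
      by_contra hcon
      push Not at hcon
      exact hx ⟨x - (n + 1), by simp only; omega⟩
    change ((geo μ hμ) x - (PP n (geo μ hμ)) x) * _ = 0
    rw [PP_apply, if_pos hx0, sub_self, zero_mul]
  · convert h2 using 1
    funext j
    simp only [Function.comp]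
    have e1 : (geo μ hμ - PP n (geo μ hμ)) (j + (n + 1)) = μ ^ (j + (n + 1)) := by
      change (geo μ hμ) (j + (n + 1)) - (PP n (geo μ hμ)) (j + (n + 1)) = _
      rw [PP_apply, if_neg (by omega), sub_zero, geo_apply]
    rw [e1, mul_conj_pow]
    congr 1
    ring

lemma Sym.Ta_geo (h : Sym c) (μ : ℂ) (hμ : ‖μ‖ < 1)
    (hz : HasSum (fun m : ℕ => c (m : ℤ) * μ ^ m) 0) : h.Ta (geo μ hμ) = 0 := by
  apply ext_coord
  intro j
  rw [h.Ta_apply]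
  change _ = (0 : ℂ)
  refine (hasSum_inner' _ _).unique ?_
  have hinj : Function.Injective (fun i : ℕ => i + j) := fun a b hab => by
    simpa using hab
  refine (hinj.hasSum_iff ?_).1 ?_
  · intro x hx
    have hx0 : x < j := by
      by_contra hcon
      push Not at hcon
      exact hx ⟨x - j, by simp only; omega⟩
    rw [h.col_apply, h.neg _ (by omega), map_zero, mul_zero]
  · have h2 := hz.mul_left (μ ^ j)
    rw [mul_zero] at h2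
    have h3 : ((fun i : ℕ => (geo μ hμ) i * conj ((h.col j) i)) ∘ fun i : ℕ => i + j) =
        fun i : ℕ => μ ^ j * (c (i : ℤ) * μ ^ i) := by
      funext i
      simp only [Function.comp]
      rw [h.col_apply, geo_apply, h.real]
      have : (((i + j : ℕ) : ℤ) - (j : ℤ)) = (i : ℤ) := by push_cast; ring
      rw [this]
      ring
    rw [h3]
    exact h2

lemma Sym.zero_conj (h : Sym c) (μ : ℂ)
    (hz : HasSum (fun m : ℕ => c (m : ℤ) * μ ^ m) 0) :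
    HasSum (fun m : ℕ => c (m : ℤ) * (conj μ) ^ m) 0 := by
  have h1 := (Complex.hasSum_conj (f := fun m : ℕ => c (m : ℤ) * μ ^ m) (x := 0)).2 (by
    simpa using hz)
  convert h1 using 1
  funext m
  rw [map_mul, map_pow, h.real]

lemma Sym.inner_WW_geo (μ : ℂ) (hμ : ‖μ‖ < 1) (hμ' : ‖conj μ‖ < 1) (n : ℕ) :
    ⟪WW n (geo (conj μ) hμ'), PP n (geo μ hμ)⟫_ℂ = ((n : ℂ) + 1) * μ ^ n := by
  rw [inner_eq_sum (n := n) (fun i hi => by rw [PP_apply, if_neg (by omega)])]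
  have h1 : ∀ i ∈ Finset.range (n + 1), (PP n (geo μ hμ)) i * conj ((WW n (geo (conj μ) hμ')) i) =
      μ ^ n := by
    intro i hi
    rw [Finset.mem_range] at hi
    rw [PP_apply, WW_apply, if_pos (by omega), if_pos (by omega), geo_apply, geo_apply, map_pow,
      Complex.conj_conj, ← pow_add]
    congr 1
    omega
  rw [Finset.sum_congr rfl h1, Finset.sum_const, Finset.card_range, nsmul_eq_mul]
  push_cast
  ring

theorem Sym.low (h : Sym c) (μ : ℂ) (hμ : ‖μ‖ < 1)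
    (hz : HasSum (fun m : ℕ => c (m : ℤ) * μ ^ m) 0) (n : ℕ) :
    (1 - ‖μ‖ ^ 2) * ((n + 1) * ‖μ‖ ^ n) - 2 * ‖μ‖ ^ (n + 1) - (‖μ‖ ^ (n + 1)) ^ 2 ≤ ‖h.C n‖ := by
  have hμ' : ‖conj μ‖ < 1 := by rwa [RCLike.norm_conj]
  set g := geo μ hμ with hg
  set f := geo (conj μ) hμ' with hf
  set s := 1 - ‖μ‖ ^ 2 with hs
  have hspos : 0 < s := by rw [hs]; nlinarith [norm_nonneg μ]
  have ng : ‖g‖ ^ 2 = s⁻¹ := norm_geo μ hμ
  have nf : ‖f‖ ^ 2 = s⁻¹ := by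
    rw [hf, norm_geo, RCLike.norm_conj]
  have hfg : ‖f‖ = ‖g‖ := by
    have : ‖f‖ ^ 2 = ‖g‖ ^ 2 := by rw [nf, ng]
    exact (sq_eq_sq₀ (norm_nonneg _) (norm_nonneg _)).1 this
  have tg : ‖g - PP n g‖ = ‖μ‖ ^ (n + 1) * ‖g‖ := by
    have : ‖g - PP n g‖ ^ 2 = (‖μ‖ ^ (n + 1) * ‖g‖) ^ 2 := by
      rw [hg, norm_geo_tail, mul_pow, norm_geo]
    exact (sq_eq_sq₀ (norm_nonneg _) (by positivity)).1 this
  have tf : ‖f - PP n f‖ = ‖μ‖ ^ (n + 1) * ‖g‖ := by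
    have : ‖f - PP n f‖ ^ 2 = (‖μ‖ ^ (n + 1) * ‖g‖) ^ 2 := by
      rw [hf, norm_geo_tail, mul_pow, RCLike.norm_conj, ng]
    exact (sq_eq_sq₀ (norm_nonneg _) (by positivity)).1 this
  have Tg : h.Ta g = 0 := h.Ta_geo μ hμ hz
  have Tf : h.Ta f = 0 := h.Ta_geo (conj μ) hμ' (h.zero_conj μ hz)
  have e2 : ‖h.A n g - PP n g‖ ≤ ‖μ‖ ^ (n + 1) * ‖g‖ := (h.norm_A_sub n Tg).trans tg.le
  have e1 : ‖h.A n f - PP n f‖ ≤ ‖μ‖ ^ (n + 1) * ‖g‖ := (h.norm_A_sub n Tf).trans tf.le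
  -- the vector
  have hC : h.C n (WW n f) = h.A n (WW n (h.A n f)) := by
    rw [h.C_apply, ← h.flipA n (WW n f), WW_WW, h.A_PP]
  have hin : ⟪h.C n (WW n f), g⟫_ℂ = ⟪WW n (h.A n f), h.A n g⟫_ℂ := by
    rw [hC, h.inner_A]
  set a := h.A n f - PP n f with ha
  set b := h.A n g - PP n g with hb
  have hAf : h.A n f = PP n f + a := by rw [ha]; abel
  have hAg : h.A n g = PP n g + b := by rw [hb]; abel
  have hexp : ⟪WW n (h.A n f), h.A n g⟫_ℂ = ⟪WW n f, PP n g⟫_ℂ + ⟪WW n f, b⟫_ℂ +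
      ⟪WW n a, PP n g⟫_ℂ + ⟪WW n a, b⟫_ℂ := by
    rw [hAf, hAg, map_add, WW_PP, inner_add_left, inner_add_right, inner_add_right]
    ring
  rw [Sym.inner_WW_geo μ hμ hμ' n] at hexp
  set τ := ‖μ‖ ^ (n + 1) with hτ
  have hτ0 : 0 ≤ τ := by positivity
  have b1 : ‖⟪WW n f, b⟫_ℂ‖ ≤ ‖g‖ * (τ * ‖g‖) := by
    refine (norm_inner_le_norm _ _).trans ?_
    refine mul_le_mul ?_ e2 (norm_nonneg _) (norm_nonneg _)
    rw [← hfg]; exact norm_WW_le _ _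
  have b2 : ‖⟪WW n a, PP n g⟫_ℂ‖ ≤ (τ * ‖g‖) * ‖g‖ := by
    refine (norm_inner_le_norm _ _).trans ?_
    refine mul_le_mul ((norm_WW_le _ _).trans e1) (norm_PP_le _ _) (norm_nonneg _) ?_
    positivity
  have b3 : ‖⟪WW n a, b⟫_ℂ‖ ≤ (τ * ‖g‖) * (τ * ‖g‖) := by
    refine (norm_inner_le_norm _ _).trans ?_
    refine mul_le_mul ((norm_WW_le _ _).trans e1) e2 (norm_nonneg _) ?_
    positivity
  have hmain : ((n : ℝ) + 1) * ‖μ‖ ^ n ≤ ‖⟪h.C n (WW n f), g⟫_ℂ‖ + 2 * τ * ‖g‖ ^ 2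
      + τ ^ 2 * ‖g‖ ^ 2 := by
    have e3 : ((n : ℝ) + 1) * ‖μ‖ ^ n = ‖((n : ℂ) + 1) * μ ^ n‖ := by
      rw [norm_mul, norm_pow]
      congr 1
      have : ((n : ℂ) + 1) = ((n + 1 : ℕ) : ℂ) := by push_cast; ring
      rw [this, Complex.norm_natCast]
      push_cast
      ring
    have e4 : ((n : ℂ) + 1) * μ ^ n = ⟪h.C n (WW n f), g⟫_ℂ - ⟪WW n f, b⟫_ℂ -
      ⟪WW n a, PP n g⟫_ℂ - ⟪WW n a, b⟫_ℂ := by
      rw [hin, hexp]; ring
    rw [e3, e4]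
    have n1 := norm_sub_le (⟪h.C n (WW n f), g⟫_ℂ - ⟪WW n f, b⟫_ℂ -
      ⟪WW n a, PP n g⟫_ℂ) (⟪WW n a, b⟫_ℂ)
    have n2 := norm_sub_le (⟪h.C n (WW n f), g⟫_ℂ - ⟪WW n f, b⟫_ℂ) (⟪WW n a, PP n g⟫_ℂ)
    have n3 := norm_sub_le (⟪h.C n (WW n f), g⟫_ℂ) (⟪WW n f, b⟫_ℂ)
    nlinarith
  have hup : ‖⟪h.C n (WW n f), g⟫_ℂ‖ ≤ ‖h.C n‖ * ‖g‖ ^ 2 := by
    refine (norm_inner_le_norm _ _).trans ?_
    have n1 := (h.C n).le_opNorm (WW n f)
    have n2 : ‖h.C n‖ * ‖WW n f‖ ≤ ‖h.C n‖ * ‖g‖ := by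
      apply mul_le_mul_of_nonneg_left _ (norm_nonneg _)
      rw [← hfg]; exact norm_WW_le _ _
    calc ‖h.C n (WW n f)‖ * ‖g‖ ≤ (‖h.C n‖ * ‖g‖) * ‖g‖ :=
          mul_le_mul_of_nonneg_right (n1.trans n2) (norm_nonneg _)
      _ = ‖h.C n‖ * ‖g‖ ^ 2 := by ring
  rw [ng] at hmain hup
  have h5 : ((n : ℝ) + 1) * ‖μ‖ ^ n ≤ (‖h.C n‖ + 2 * τ + τ ^ 2) * s⁻¹ := by
    have : (‖h.C n‖ + 2 * τ + τ ^ 2) * s⁻¹ = ‖h.C n‖ * s⁻¹ + 2 * τ * s⁻¹ + τ ^ 2 * s⁻¹ := by ring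
    rw [this]
    linarith
  have h6 : s * (((n : ℝ) + 1) * ‖μ‖ ^ n) ≤ ‖h.C n‖ + 2 * τ + τ ^ 2 := by
    calc s * (((n : ℝ) + 1) * ‖μ‖ ^ n) ≤ s * ((‖h.C n‖ + 2 * τ + τ ^ 2) * s⁻¹) :=
          mul_le_mul_of_nonneg_left h5 hspos.le
      _ = ‖h.C n‖ + 2 * τ + τ ^ 2 := by field_simp
  linarith

theorem Sym.low' (h : Sym c) (μ : ℂ) (hμ : ‖μ‖ < 1)
    (hz : HasSum (fun m : ℕ => c (m : ℤ) * μ ^ m) 0) (n : ℕ)
    (hn : 4 ≤ (1 - ‖μ‖ ^ 2) * (n + 1)) : ‖μ‖ ^ (n + 1) ≤ ‖h.C n‖ := by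
  refine le_trans ?_ (h.low μ hμ hz n)
  have h1 : ‖μ‖ ^ (n + 1) ≤ ‖μ‖ ^ n := pow_le_pow_of_le_one (norm_nonneg _) hμ.le (by omega)
  have h2 : ‖μ‖ ^ (n + 1) ≤ 1 := pow_le_one₀ (norm_nonneg _) hμ.le
  have h3 : 0 ≤ ‖μ‖ ^ (n + 1) := by positivity
  have h4 : 4 * ‖μ‖ ^ n ≤ (1 - ‖μ‖ ^ 2) * ((n + 1) * ‖μ‖ ^ n) := by
    rw [← mul_assoc]
    exact mul_le_mul_of_nonneg_right hn (by positivity)
  nlinarith

theorem Sym.frequently (h : Sym c)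
    (hz : ∀ δ : ℝ, 0 < δ → ∃ μ : ℂ, ‖μ‖ < 1 ∧ 1 - ‖μ‖ ^ 2 < δ ∧
      HasSum (fun m : ℕ => c (m : ℤ) * μ ^ m) 0) (N : ℕ) :
    ∃ n, N ≤ n ∧ Real.exp (-5) ≤ ‖h.C n‖ := by
  obtain ⟨μ, hμ, hδ, hsum⟩ := hz (min (1 / 2) (1 / (N + 1))) (by positivity)
  set s := 1 - ‖μ‖ ^ 2 with hs
  have hspos : 0 < s := by rw [hs]; nlinarith [norm_nonneg μ]
  have hs1 : s < 1 / 2 := lt_of_lt_of_le hδ (min_le_left _ _)
  have hs2 : s < 1 / (N + 1) := lt_of_lt_of_le hδ (min_le_right _ _)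
  obtain ⟨n, hn⟩ : ∃ n : ℕ, n + 1 = ⌈4 / s⌉₊ := by
    have : 0 < ⌈4 / s⌉₊ := Nat.ceil_pos.2 (by positivity)
    exact ⟨⌈4 / s⌉₊ - 1, by omega⟩
  have hn1 : 4 / s ≤ (n : ℝ) + 1 := by
    have := Nat.le_ceil (4 / s)
    rw [← hn] at this
    push_cast at this
    exact this
  have hn2 : (n : ℝ) + 1 < 4 / s + 1 := by
    have := Nat.ceil_lt_add_one (a := 4 / s) (by positivity)
    rw [← hn] at this
    push_cast at this
    exact this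
  have h4 : 4 ≤ s * (n + 1) := by
    rw [div_le_iff₀ hspos] at hn1
    linarith
  have h5 : s * (n + 1) ≤ 5 := by
    have : s * (n + 1) ≤ s * (4 / s + 1) := mul_le_mul_of_nonneg_left hn2.le hspos.le
    have e : s * (4 / s + 1) = 4 + s := by field_simp
    linarith
  refine ⟨n, ?_, ?_⟩
  · have h6 : (N : ℝ) + 1 < n + 1 := by
      have h7 : s * (N + 1) < 1 := by
        rw [lt_div_iff₀ (by positivity)] at hs2
        exact hs2
      by_contra hcon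
      push Not at hcon
      have : s * (n + 1) ≤ s * (N + 1) := mul_le_mul_of_nonneg_left hcon hspos.le
      linarith
    have : (N : ℝ) < n := by linarith
    exact_mod_cast this.le
  · refine le_trans ?_ (h.low' μ hμ hsum n h4)
    have h6 : Real.exp (-2 * s) ≤ 1 - s := by
      have h7 : 1 ≤ (1 - s) * Real.exp (2 * s) := by
        have := Real.add_one_le_exp (2 * s)
        nlinarith
      have h8 : Real.exp (-2 * s) * Real.exp (2 * s) = 1 := by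
        rw [← Real.exp_add]; simp
      have h9 := Real.exp_pos (2 * s)
      by_contra hcon
      push Not at hcon
      nlinarith
    have h7 : (Real.exp (-5)) ^ 2 ≤ (‖μ‖ ^ (n + 1)) ^ 2 := by
      have e1 : (‖μ‖ ^ (n + 1)) ^ 2 = (1 - s) ^ (n + 1) := by
        rw [← pow_mul, mul_comm, pow_mul, hs]
        congr 1
        ring
      rw [e1]
      refine le_trans ?_ (pow_le_pow_left₀ (Real.exp_pos _).le h6 (n + 1))
      rw [← Real.exp_nat_mul, ← Real.exp_nat_mul]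
      apply Real.exp_le_exp.2
      push_cast
      nlinarith
    exact (pow_le_pow_iff_left₀ (Real.exp_pos _).le (by positivity) (by norm_num)).1 h7

end Pool.Agent.TH259.FS
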