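import Mathlib
import Pool.Agent.TH259.FS.Low

set_option autoImplicit false

/-!
Strong limits of `P K P + W K' W + C`.
-/

namespace Pool.Agent.TH259.FS

open Filter Topology ComplexConjugate
open scoped InnerProductSpace

lemma tendsto_coord (x : E) : Tendsto (fun n : ℕ => x n) atTop (𝓝 0) := by
  have h1 := (hasSum_inner' x x).summable.tendsto_atTop_zero
  rw [tendsto_zero_iff_norm_tendsto_zero] at h1 ⊢
  have h2 := h1.sqrt
  rw [Real.sqrt_zero] at h2
  refine h2.congr (fun n => ?_)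
  rw [norm_mul, RCLike.norm_conj, Real.sqrt_mul_self (norm_nonneg _)]

lemma norm_e (n : ℕ) : ‖e n‖ = 1 := by
  rw [e, lp.norm_single (by norm_num)]
  simp

lemma tendsto_compact {K : E →L[ℂ] E} (hK : IsCompactOperator K) :
    Tendsto (fun n => K (e n)) atTop (𝓝 0) := by
  rw [tendsto_iff_ultrafilter]
  intro U hU
  obtain ⟨S, hS, hSK⟩ := IsCompactOperator.image_closedBall_subset_compact (f := K.toLinearMap) hK 1
  have hmem : ∀ n, K (e n) ∈ S := fun n => hSK ⟨e n, by
    rw [mem_closedBall_zero_iff, norm_e], rfl⟩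
  have h1 : S ∈ U.map (fun n => K (e n)) := by
    rw [Ultrafilter.mem_map]
    exact Filter.mem_of_superset Filter.univ_mem (fun n _ => hmem n)
  obtain ⟨y, hyS, hy⟩ := hS.ultrafilter_le_nhds' (U.map (fun n => K (e n))) h1
  have hy' : Tendsto (fun n => K (e n)) U (𝓝 y) := hy
  have hy0 : y = 0 := by
    apply ext_inner_left ℂ
    intro z
    rw [inner_zero_right]
    have h2 : Tendsto (fun n => ⟪z, K (e n)⟫_ℂ) U (𝓝 ⟪z, y⟫_ℂ) :=
      (Continuous.tendsto (by fun_prop : Continuous fun w : E => ⟪z, w⟫_ℂ) y).comp hy'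
    have h3 : Tendsto (fun n => ⟪z, K (e n)⟫_ℂ) U (𝓝 0) := by
      have h4 : Tendsto (fun n : ℕ => conj ((ContinuousLinearMap.adjoint K z) n)) atTop (𝓝 (conj 0)) :=
        (Complex.continuous_conj.tendsto 0).comp (tendsto_coord (ContinuousLinearMap.adjoint K z))
      rw [map_zero] at h4
      refine (h4.mono_left hU).congr (fun n => ?_)
      rw [← inner_e_left, inner_conj_symm, ContinuousLinearMap.adjoint_inner_left]
    exact tendsto_nhds_unique h2 h3
  rw [← hy0]
  exact hy

lemma PP_e {n j : ℕ} (h : j ≤ n) : PP n (e j) = e j := by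
  apply ext_coord
  intro i
  rw [PP_apply, e_apply]
  split_ifs with h1 h2 h2 <;> first | rfl | omega

lemma WW_e {n j : ℕ} (h : j ≤ n) : WW n (e j) = e (n - j) := by
  apply ext_coord
  intro i
  rw [WW_apply, e_apply, e_apply]
  split_ifs with h1 h2 h3 h3 h3 <;> first | rfl | omega

lemma eq_zero_of_strong {K K' : E →L[ℂ] E} (hK' : IsCompactOperator K') {D X : ℕ → E →L[ℂ] E}
    (hD : Tendsto (fun n => ‖D n‖) atTop (𝓝 0))
    (hX : ∀ n x, X n x = PP n (K (PP n x)) + WW n (K' (WW n x)) + D n x)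
    (hlim : ∀ x, Tendsto (fun n => X n x) atTop (𝓝 0)) : K = 0 := by
  have h1 : ∀ j, K (e j) = 0 := by
    intro j
    have a1 : Tendsto (fun n => D n (e j)) atTop (𝓝 0) := by
      rw [tendsto_zero_iff_norm_tendsto_zero]
      refine squeeze_zero (fun n => norm_nonneg _) (fun n => ?_) hD
      have := (D n).le_opNorm (e j)
      rwa [norm_e, mul_one] at this
    have a2 : Tendsto (fun n => WW n (K' (WW n (e j)))) atTop (𝓝 0) := by
      rw [tendsto_zero_iff_norm_tendsto_zero]
      have a3 : Tendsto (fun n => ‖K' (e (n - j))‖) atTop (𝓝 0) := by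
        have := (tendsto_compact hK').norm
        rw [norm_zero] at this
        exact this.comp (tendsto_sub_atTop_nat j)
      refine squeeze_zero' (Eventually.of_forall fun n => norm_nonneg _) ?_ a3
      filter_upwards [eventually_ge_atTop j] with n hn
      rw [WW_e hn]
      exact norm_WW_le _ _
    have a3 : Tendsto (fun n => PP n (K (PP n (e j)))) atTop (𝓝 (K (e j))) := by
      refine tendsto_comp norm_PP_le' ?_ (tendsto_PP _)
      exact (K.continuous.tendsto _).comp (tendsto_PP _)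
    have a4 := (a3.add a2).add a1
    rw [add_zero, add_zero] at a4
    have a5 := a4.congr (fun n => (hX n (e j)).symm)
    exact tendsto_nhds_unique a5 (hlim (e j))
  apply ContinuousLinearMap.ext
  intro x
  have h2 : Tendsto (fun n => K (PP n x)) atTop (𝓝 (K x)) :=
    (K.continuous.tendsto _).comp (tendsto_PP _)
  have h3 : ∀ n, K (PP n x) = 0 := by
    intro n
    rw [PP_eq_sum, map_sum]
    apply Finset.sum_eq_zero
    intro k _
    rw [map_smul, h1, smul_zero]
  simp only [h3] at h2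
  exact tendsto_nhds_unique h2 tendsto_const_nhds

variable {c : ℤ → ℂ}

lemma norm_WDW_le (n : ℕ) (D : E →L[ℂ] E) : ‖WW n * D * WW n‖ ≤ ‖D‖ := by
  apply ContinuousLinearMap.opNorm_le_bound _ (norm_nonneg _)
  intro x
  change ‖WW n (D (WW n x))‖ ≤ _
  refine (norm_WW_le _ _).trans ((D.le_opNorm _).trans ?_)
  exact mul_le_mul_of_nonneg_left (norm_WW_le _ _) (norm_nonneg _)

/-- The sequence `C` is not in the ideal `J`. -/
theorem Sym.not_mem_ideal (h : Sym c)
    (hz : ∀ δ : ℝ, 0 < δ → ∃ μ : ℂ, ‖μ‖ < 1 ∧ 1 - ‖μ‖ ^ 2 < δ ∧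
      HasSum (fun m : ℕ => c (m : ℤ) * μ ^ m) 0) :
    ¬ ∃ K K' : E →L[ℂ] E, IsCompactOperator K ∧ IsCompactOperator K' ∧
        ∃ D : ℕ → (E →L[ℂ] E),
          Tendsto (fun n => ‖D n‖) atTop (𝓝 0) ∧
          ∀ n, h.C n = PP n * K * PP n + WW n * K' * WW n + D n := by
  rintro ⟨K, K', hK, hK', D, hD, hC⟩
  have k0 : K = 0 := by
    refine eq_zero_of_strong hK' hD (X := h.C) (fun n x => ?_) h.tendsto_C
    rw [hC n]
    rfl
  have k0' : K' = 0 := by
    have hD' : Tendsto (fun n => ‖WW n * D n * WW n‖) atTop (𝓝 0) :=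
      squeeze_zero (fun n => norm_nonneg _) (fun n => norm_WDW_le n (D n)) hD
    refine eq_zero_of_strong hK hD' (X := fun n => WW n * h.C n * WW n) (fun n x => ?_)
      h.tendsto_flipC
    rw [hC n]
    change WW n (PP n (K (PP n (WW n x))) + WW n (K' (WW n (WW n x))) + D n (WW n x)) =
      PP n (K' (PP n x)) + WW n (K (WW n x)) + WW n (D n (WW n x))
    rw [map_add, map_add, WW_PP, WW_WW, PP_WW, WW_WW]
    abel
  subst k0 k0'
  have hCD : ∀ n, h.C n = D n := by
    intro n
    rw [hC n]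
    simp
  have h1 : ∀ᶠ n in atTop, ‖D n‖ < Real.exp (-5) := hD.eventually_lt_const (Real.exp_pos _)
  obtain ⟨N, hN⟩ := eventually_atTop.1 h1
  obtain ⟨n, hn, hn2⟩ := h.frequently hz N
  have := hN n hn
  rw [← hCD n] at this
  linarith

end Pool.Agent.TH259.FS
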